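import Pool.Agent.V1180.XiD

set_option autoImplicit false

/-!
# MP_d99112_an: a truncated cosine transform of the Xi kernel with four nonreal zeros
-/

namespace Pool.Agent.Results.MP_d99112_an.FourNonrealZeros

open MeasureTheory

/-- The kernel `Φ(t) = 2 ∑_{n ≥ 1} (2 π² n⁴ e^{9t/2} - 3 π n² e^{5t/2}) exp(-π n² e^{2t})`
(the summation index below is `n - 1`). -/
noncomputable def Φ (t : ℝ) : ℝ :=
  2 * ∑' n : ℕ, (2 * Real.pi ^ 2 * ((n : ℝ) + 1) ^ 4 * Real.exp (9 * t / 2) -
      3 * Real.pi * ((n : ℝ) + 1) ^ 2 * Real.exp (5 * t / 2)) *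
    Real.exp (-(Real.pi * ((n : ℝ) + 1) ^ 2 * Real.exp (2 * t)))

/-- `F_R(z) = ∫_0^R Φ(x) cos(z x) dx`. -/
noncomputable def F (R : ℝ) (z : ℂ) : ℂ :=
  ∫ x in (0:ℝ)..R, ((Φ x : ℝ) : ℂ) * Complex.cos (z * x)

/-- For `R = (log 3)/2` the function `F_R` has four distinct zeros which are neither real nor purely
imaginary, so at least four nonreal zeros. -/
theorem result : ∃ R : ℝ, 0 < R ∧ R = Real.log 3 / 2 ∧
    ∃ S : Finset ℂ, S.card = 4 ∧ ∀ w ∈ S, F R w = 0 ∧ w.im ≠ 0 ∧ w.re ≠ 0 := by
  refine ⟨Real.log 3 / 2, Pool.Agent.V1180.Xi.RR_pos, rfl, ?_⟩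
  have hF : ∀ z, F (Real.log 3 / 2) z = Pool.Agent.V1180.Xi.FT Pool.Agent.V1180.Xi.Phi Pool.Agent.V1180.Xi.RR z :=
    fun z => rfl
  obtain ⟨w, hw, hre, him⟩ := Pool.Agent.V1180.Xi.main
  rw [← hF] at hw
  have hneg : ∀ z, F (Real.log 3 / 2) (-z) = F (Real.log 3 / 2) z := by
    intro z
    unfold F
    apply intervalIntegral.integral_congr
    intro x _
    dsimp only
    rw [neg_mul, Complex.cos_neg]
  have hconj : ∀ z, F (Real.log 3 / 2) ((starRingEnd ℂ) z) = (starRingEnd ℂ) (F (Real.log 3 / 2) z) := by
    intro z
    unfold F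
    rw [← intervalIntegral.intervalIntegral_conj]
    apply intervalIntegral.integral_congr
    intro x _
    dsimp only
    rw [map_mul, Complex.conj_ofReal, ← Complex.cos_conj, map_mul, Complex.conj_ofReal]
  refine ⟨{w, (starRingEnd ℂ) w, -w, -(starRingEnd ℂ) w}, ?_, ?_⟩
  · rw [Finset.card_insert_of_notMem, Finset.card_insert_of_notMem, Finset.card_insert_of_notMem,
      Finset.card_singleton]
    · rw [Finset.mem_singleton]
      intro h
      have := congrArg Complex.im h
      simp at this
      apply him
      linarith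
    · rw [Finset.mem_insert, Finset.mem_singleton]
      rintro (h | h)
      · have := congrArg Complex.re h
        simp at this
        apply hre
        linarith
      · have := congrArg Complex.im h
        simp at this
        apply him
        linarith
    · rw [Finset.mem_insert, Finset.mem_insert, Finset.mem_singleton]
      rintro (h | h | h)
      · have := congrArg Complex.im h
        simp at this
        apply him
        linarith
      · have := congrArg Complex.im h
        simp at this
        apply him
        linarith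
      · have := congrArg Complex.re h
        simp at this
        apply hre
        linarith
  · intro z hz
    rw [Finset.mem_insert, Finset.mem_insert, Finset.mem_insert, Finset.mem_singleton] at hz
    rcases hz with rfl | rfl | rfl | rfl
    · exact ⟨hw, him, hre⟩
    · refine ⟨by rw [hconj, hw, map_zero], ?_, ?_⟩
      · simpa using him
      · simpa using hre
    · refine ⟨by rw [hneg, hw], ?_, ?_⟩
      · simpa using him
      · simpa using hre
    · refine ⟨by rw [hneg, hconj, hw, map_zero], ?_, ?_⟩
      · simpa using him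
      · simpa using hre

end Pool.Agent.Results.MP_d99112_an.FourNonrealZeros
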